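import Pool.Agent.helper62.K3.Defs
import Pool.Agent.helper31.HK.HT1

/-! hk:HT2 homotopic maps (HK project) -/

open scoped Manifold ContDiff

noncomputable section

namespace Pool.Agent.helper62.K3

theorem HT2_addself {X : Type} (f : Finset X → ZMod 2) : f + f = 0 := by
  funext σ
  exact CharTwo.add_self_eq_zero _

theorem HT2_dd_empty {X : Type} (g : Finset X → ZMod 2) : dd g ∅ = 0 := by
  simp [dd]

/-- hk:HT2 homotopic maps -/
theorem HT2 {X Y : Type} [MetricSpace X] [MetricSpace Y] (B : Set X) (hB : IsCompact B)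
    (D : Set Y) (Φ : ℝ → X → Y)
    (hΦ : ContinuousOn (fun q : ℝ × X => Φ q.1 q.2) (Set.Icc 0 1 ×ˢ B))
    (hD : ∀ t ∈ Set.Icc (0 : ℝ) 1, ∀ x ∈ B, Φ t x ∈ D) (n : ℕ) (f : Finset Y → ZMod 2)
    (hf : dd f ∈ Zg D (n + 1)) :
    ∃ g : Finset X → ZMod 2, g ∅ = 0 ∧ pull (Φ 0) f + pull (Φ 1) f + dd g ∈ Zg B n := by
  obtain ⟨ε, hε, hf⟩ := hf
  have huc := (isCompact_Icc.prod hB).uniformContinuousOn_of_continuous hΦ
  rw [Metric.uniformContinuousOn_iff] at huc
  obtain ⟨δ, hδ, huc⟩ := huc ε hε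
  obtain ⟨N, hN⟩ := exists_nat_gt (1 / δ)
  have hNpos : 0 < (N : ℝ) := lt_trans (by positivity) hN
  have hN0 : (N : ℝ) ≠ 0 := hNpos.ne'
  have h1N : 1 / (N : ℝ) < δ := by
    rw [div_lt_iff₀ hNpos]
    rw [div_lt_iff₀ hδ] at hN
    linarith
  have ht : ∀ j : ℕ, j ≤ N → (j : ℝ) / N ∈ Set.Icc (0 : ℝ) 1 := by
    intro j hj
    constructor
    · positivity
    · rw [div_le_one hNpos]; exact_mod_cast hj
  have key : ∀ j : ℕ, j ≤ N → ∃ g : Finset X → ZMod 2, g ∅ = 0 ∧
      pull (Φ 0) f + pull (Φ ((j : ℝ) / N)) f + dd g ∈ Zg B n := by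
    intro j
    induction j with
    | zero =>
      intro _
      refine ⟨0, rfl, ?_⟩
      rw [Nat.cast_zero, zero_div, HT2_addself, map_zero, add_zero]
      exact Submodule.zero_mem _
    | succ j ih =>
      intro hj
      obtain ⟨g, hg0, hg⟩ := ih (by omega)
      have t1 := ht j (by omega)
      have t2 := ht (j + 1) hj
      obtain ⟨g', hg'0, hg'⟩ := HT1 B D (Φ ((j : ℝ) / N)) (Φ (((j + 1 : ℕ) : ℝ) / N)) n f ε hf
        (fun x hx => hD _ t1 x hx) (fun x hx => hD _ t2 x hx) δ hδ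
        (fun x hx y hy hxy => by
          have := huc ((j : ℝ) / N, x) ⟨t1, hx⟩ ((j : ℝ) / N, y) ⟨t1, hy⟩
            (by rw [Prod.dist_eq]; simpa [hδ] using hxy)
          exact this)
        (fun x hx y hy hxy => by
          have hdj : dist ((j : ℝ) / N) (((j + 1 : ℕ) : ℝ) / N) < δ := by
            rw [Real.dist_eq]
            have : (j : ℝ) / N - ((j + 1 : ℕ) : ℝ) / N = -(1 / (N : ℝ)) := by
              push_cast; field_simp; ring
            rw [this, abs_neg, abs_of_pos (by positivity)]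
            exact h1N
          have := huc ((j : ℝ) / N, x) ⟨t1, hx⟩ (((j + 1 : ℕ) : ℝ) / N, y) ⟨t2, hy⟩
            (by rw [Prod.dist_eq]; exact max_lt hdj hxy)
          exact this)
        (fun x hx y hy hxy => by
          have := huc (((j + 1 : ℕ) : ℝ) / N, x) ⟨t2, hx⟩ (((j + 1 : ℕ) : ℝ) / N, y) ⟨t2, hy⟩
            (by rw [Prod.dist_eq]; simpa [hδ] using hxy)
          exact this)
      refine ⟨g + g', by rw [Pi.add_apply, hg0, hg'0, add_zero], ?_⟩
      have h := Submodule.add_mem _ hg hg'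
      have e : pull (Φ 0) f + pull (Φ ((j : ℝ) / N)) f + dd g +
          (pull (Φ ((j : ℝ) / N)) f + pull (Φ (((j + 1 : ℕ) : ℝ) / N)) f + dd g') =
          pull (Φ 0) f + pull (Φ (((j + 1 : ℕ) : ℝ) / N)) f + dd (g + g') +
            (pull (Φ ((j : ℝ) / N)) f + pull (Φ ((j : ℝ) / N)) f) := by
        rw [map_add]; abel
      rw [e, HT2_addself, add_zero] at h
      exact h
  obtain ⟨g, h0, h⟩ := key N (le_refl _)
  rw [div_self hN0] at h
  exact ⟨g, h0, h⟩

end Pool.Agent.helper62.K3
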