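import Pool.Agent.helper62.K3.Defs
import Pool.Agent.helper15.HK.DD
import Pool.Agent.helper10.HK.HT2

/-! hk:FB small sets (HK project) -/

open scoped Manifold ContDiff

noncomputable section

namespace Pool.Agent.helper62.K3

/-- hk:FB small sets -/
theorem FB {X : Type} [MetricSpace X] (C D : Set X) (x : X) (η : ℝ)
    (Φ : ℝ → X → X) (hK : IsCompact (Metric.closedBall x η))
    (hΦ : ContinuousOn (fun q : ℝ × X => Φ q.1 q.2) (Set.Icc 0 1 ×ˢ Metric.closedBall x η))
    (h0 : ∀ y ∈ Metric.closedBall x η, Φ 0 y = y)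
    (h1 : ∃ c, ∀ y ∈ Metric.closedBall x η, Φ 1 y = c)
    (hD : ∀ t ∈ Set.Icc (0 : ℝ) 1, ∀ y ∈ Metric.closedBall x η, Φ t y ∈ D)
    (hC : C ⊆ Metric.closedBall x η) (n : ℕ) : FinPair C D n := by
  classical
  obtain ⟨c, hc⟩ := h1
  refine ⟨1, { toFun := fun f _ => f {c}, map_add' := fun f g => rfl, map_smul' := fun a f => rfl },
    fun f hf hdf hl => ?_⟩
  have hfc : f {c} = 0 := congrFun hl 0
  rw [DD_Vrel_empty] at hf
  obtain ⟨g, hg0, hg⟩ := HT2 (Metric.closedBall x η) hK D Φ hΦ hD n f hdf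
  have hZ : f + dd g ∈ Zg C n := by
    obtain ⟨δ, hδ, hg⟩ := hg
    refine ⟨δ, hδ, fun σ hσ hs hcard => ?_⟩
    have hσB : (↑σ : Set X) ⊆ Metric.closedBall x η := hσ.trans hC
    have h := hg σ hσB hs hcard
    have e0 : pull (Φ 0) f σ = f σ := by
      have hi : σ.image (Φ 0) = σ := by
        conv_rhs => rw [← Finset.image_id (s := σ)]
        exact Finset.image_congr fun y hy => h0 y (hσB hy)
      show (if (σ.image (Φ 0)).card = σ.card then f (σ.image (Φ 0)) else 0) = f σ
      rw [hi, if_pos rfl]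
    have e1 : pull (Φ 1) f σ = 0 := by
      show (if (σ.image (Φ 1)).card = σ.card then f (σ.image (Φ 1)) else 0) = 0
      rcases σ.eq_empty_or_nonempty with he | he
      · subst he
        simp [hf]
      · have hi : σ.image (Φ 1) = {c} := by
          ext z
          simp only [Finset.mem_image, Finset.mem_singleton]
          constructor
          · rintro ⟨y, hy, rfl⟩
            exact hc y (hσB hy)
          · rintro rfl
            obtain ⟨y, hy⟩ := he
            exact ⟨y, hy, hc y (hσB hy)⟩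
        rw [hi, hfc]
        split_ifs <;> rfl
    rw [Pi.add_apply, Pi.add_apply, e0, e1, add_zero] at h
    exact h
  have hV : f + dd g ∈ Vrel (∅ : Set X) := by
    rw [DD_Vrel_empty, Pi.add_apply, hf, zero_add]
    exact HT2_dd_empty _
  have hgV : g ∈ Vrel (∅ : Set X) := (DD_Vrel_empty g).2 hg0
  have e : f = dd g + (f + dd g) := by
    have : dd g + (f + dd g) = f + (dd g + dd g) := by abel
    rw [this, HT2_addself, add_zero]
  rw [e]
  exact Submodule.add_mem_sup (Submodule.mem_map_of_mem hgV) ⟨hV, hZ⟩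

end Pool.Agent.helper62.K3
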