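import Pool.Agent.helper62.K3.Defs
import Pool.Agent.helper15.HK.DD
import Pool.Agent.helper10.HK.HT2

/-! hk:HI homotopy invariance (HK project) -/

open scoped Manifold ContDiff

noncomputable section

namespace Pool.Agent.helper62.K3

section HI

variable {X Y : Type} [MetricSpace X] [CompactSpace X] [MetricSpace Y] [CompactSpace Y]

theorem HI_Zg (φ : X → Y) (hφ : Continuous φ) (n : ℕ) (f : Finset Y → ZMod 2)
    (hf : f ∈ Zg (Set.univ : Set Y) n) : pull φ f ∈ Zg (Set.univ : Set X) n := by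
  classical
  obtain ⟨ε, hε, hf⟩ := hf
  have huc := CompactSpace.uniformContinuous_of_continuous hφ
  obtain ⟨δ, hδ, huc⟩ := Metric.uniformContinuous_iff.1 huc ε hε
  refine ⟨δ, hδ, fun σ _ hs hcard => ?_⟩
  show (if (σ.image φ).card = σ.card then f (σ.image φ) else 0) = 0
  split_ifs with h
  · apply hf _ (Set.subset_univ _) _ (h.trans hcard)
    intro x hx y hy
    obtain ⟨a, ha, rfl⟩ := Finset.mem_image.1 hx
    obtain ⟨b, hb, rfl⟩ := Finset.mem_image.1 hy
    exact huc (hs a ha b hb)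
  · rfl

theorem HI_Vrel (φ : X → Y) (f : Finset Y → ZMod 2)
    (hf : f ∈ Vrel (∅ : Set Y)) : pull φ f ∈ Vrel (∅ : Set X) := by
  classical
  rw [DD_Vrel_empty] at hf ⊢
  show (if ((∅ : Finset X).image φ).card = (∅ : Finset X).card then f ((∅ : Finset X).image φ)
    else 0) = 0
  simp [hf]

theorem HI_Cyc (φ : X → Y) (hφ : Continuous φ) (n : ℕ) (f : Finset Y → ZMod 2)
    (hf : f ∈ Cyc dd (Zg (Set.univ : Set Y)) (Vrel ∅) n) :
    pull φ f ∈ Cyc dd (Zg (Set.univ : Set X)) (Vrel ∅) n := by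
  refine ⟨HI_Vrel φ f hf.1, ?_⟩
  have h : dd f ∈ Zg (Set.univ : Set Y) (n + 1) := hf.2
  show dd (pull φ f) ∈ Zg (Set.univ : Set X) (n + 1)
  rw [DD_pull]
  exact HI_Zg φ hφ (n + 1) _ h

theorem HI_Bdy (φ : X → Y) (hφ : Continuous φ) (n : ℕ) (f : Finset Y → ZMod 2)
    (hf : f ∈ Bdy dd (Zg (Set.univ : Set Y)) (Vrel ∅) n) :
    pull φ f ∈ Bdy dd (Zg (Set.univ : Set X)) (Vrel ∅) n := by
  obtain ⟨a, ha, b, hb, rfl⟩ := Submodule.mem_sup.1 hf
  obtain ⟨g, hg, rfl⟩ := Submodule.mem_map.1 ha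
  rw [map_add]
  refine Submodule.add_mem_sup ?_ ⟨HI_Vrel φ b hb.1, HI_Zg φ hφ n b hb.2⟩
  rw [← DD_pull]
  exact Submodule.mem_map_of_mem (HI_Vrel φ g hg)

/-- the induced map -/
def HI_map (φ : X → Y) (hφ : Continuous φ) (n : ℕ) : HX Y n →ₗ[ZMod 2] HX X n :=
  Submodule.mapQ _ _ ((pull φ).restrict (fun f hf => HI_Cyc φ hφ n f hf))
    (fun f hf => HI_Bdy φ hφ n f.1 hf)

theorem HI_map_mk (φ : X → Y) (hφ : Continuous φ) (n : ℕ)
    (f : Cyc dd (Zg (Set.univ : Set Y)) (Vrel ∅) n) :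
    HI_map φ hφ n (Submodule.Quotient.mk f) =
      Submodule.Quotient.mk ⟨pull φ f.1, HI_Cyc φ hφ n f.1 f.2⟩ := rfl

theorem HI_homotopic (φ : X → X) (hφ : Continuous φ)
    (H : ContinuousMap.Homotopic (⟨φ, hφ⟩ : C(X, X)) (ContinuousMap.id X)) (n : ℕ)
    (f : Finset X → ZMod 2) (hf : f ∈ Cyc dd (Zg (Set.univ : Set X)) (Vrel ∅) n) :
    pull φ f - f ∈ Bdy dd (Zg (Set.univ : Set X)) (Vrel ∅) n := by
  classical
  obtain ⟨H⟩ := H
  obtain ⟨g, hg0, hg⟩ := HT2 (Set.univ : Set X) isCompact_univ Set.univ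
    (fun t x => H (Set.projIcc 0 1 zero_le_one t, x))
    (by
      apply Continuous.continuousOn
      exact H.continuous.comp ((continuous_projIcc.comp continuous_fst).prodMk continuous_snd))
    (fun _ _ _ _ => Set.mem_univ _) n f hf.2
  have e0 : (fun x => H (Set.projIcc (0 : ℝ) 1 zero_le_one 0, x)) = φ := by
    funext x
    rw [Set.projIcc_left]
    exact H.apply_zero x
  have e1 : (fun x => H (Set.projIcc (0 : ℝ) 1 zero_le_one 1, x)) = (id : X → X) := by
    funext x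
    rw [Set.projIcc_right]
    exact H.apply_one x
  simp only [e0, e1, DD_id] at hg
  have hgV : g ∈ Vrel (∅ : Set X) := (DD_Vrel_empty g).2 hg0
  have hV : pull φ f + f + dd g ∈ Vrel (∅ : Set X) := by
    refine Submodule.add_mem _ (Submodule.add_mem _ (HI_Vrel φ f hf.1) hf.1) ?_
    rw [DD_Vrel_empty]
    exact HT2_dd_empty _
  have e : pull φ f - f = dd g + (pull φ f + f + dd g) := by
    have h1 : dd g + (pull φ f + f + dd g) = pull φ f - f + (f + f) + (dd g + dd g) := by abel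
    rw [h1, HT2_addself, HT2_addself, add_zero, add_zero]
  rw [e]
  exact Submodule.add_mem_sup (Submodule.mem_map_of_mem hgV) ⟨hV, hg⟩

theorem HI_comp (φ : X → Y) (hφ : Continuous φ) (ψ : Y → X) (hψ : Continuous ψ)
    (H : ContinuousMap.Homotopic ((⟨ψ, hψ⟩ : C(Y, X)).comp ⟨φ, hφ⟩) (ContinuousMap.id X)) (n : ℕ) :
    (HI_map φ hφ n).comp (HI_map ψ hψ n) = LinearMap.id := by
  apply LinearMap.ext
  intro q
  obtain ⟨f, rfl⟩ := Submodule.Quotient.mk_surjective _ q
  rw [LinearMap.comp_apply, HI_map_mk, HI_map_mk, LinearMap.id_apply]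
  rw [Submodule.Quotient.eq]
  have h := HI_homotopic (ψ ∘ φ) (hψ.comp hφ) H n f.1 f.2
  rw [DD_comp] at h
  exact h

/-- hk:HI homotopy invariance -/
theorem HI {X Y : Type} [MetricSpace X] [CompactSpace X] [MetricSpace Y] [CompactSpace Y]
    (e : ContinuousMap.HomotopyEquiv X Y) (n : ℕ) :
    Module.finrank (ZMod 2) (HX X n) = Module.finrank (ZMod 2) (HX Y n) := by
  have h1 := HI_comp e.toFun e.toFun.continuous e.invFun e.invFun.continuous e.left_inv n
  have h2 := HI_comp e.invFun e.invFun.continuous e.toFun e.toFun.continuous e.right_inv n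
  exact (LinearEquiv.ofLinear (HI_map e.toFun e.toFun.continuous n)
    (HI_map e.invFun e.invFun.continuous n) h1 h2).finrank_eq.symm

end HI

end Pool.Agent.helper62.K3
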